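import Mathlib

set_option autoImplicit false

namespace Pool.Agent.Results.MP_42f001_co.Primes

open Finset

/-- Inside the subgraph of `G` induced by `U`, the vertex `y` is a function of the vertices of `S`
(which lie in `U` and differ from `y`). -/
def IsFunOf {n : ℕ} (G : SimpleGraph (Fin n)) (U : Finset (Fin n)) (y : Fin n)
    (S : Finset (Fin n)) : Prop :=
  S ⊆ U ∧ y ∉ S ∧ ∃ f : (S → Prop) → Prop,
    ∀ z ∈ U, z ≠ y → z ∉ S → (G.Adj y z ↔ f (fun x => G.Adj x z))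

/-- The functionality of `G` is at most `k`. -/
def FunLe {n : ℕ} (G : SimpleGraph (Fin n)) (k : ℕ) : Prop :=
  ∀ U : Finset (Fin n), U.Nonempty → ∃ y ∈ U, ∃ S : Finset (Fin n), S.card ≤ k ∧ IsFunOf G U y S

/-- All modules of `G` are trivial. -/
def IsPrime {n : ℕ} (G : SimpleGraph (Fin n)) : Prop :=
  ∀ M : Set (Fin n), (∀ x, x ∉ M → ∀ y ∈ M, ∀ z ∈ M, (G.Adj x y ↔ G.Adj x z)) →
    M.Subsingleton ∨ M = Set.univ

def Pw {n : ℕ} (G : SimpleGraph (Fin n)) (U : Finset (Fin n)) (y : Fin n)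
    (S : Finset (Fin n)) : Prop :=
  S ⊆ U ∧ y ∉ S ∧ ∀ z ∈ U, z ≠ y → z ∉ S → ∀ z' ∈ U, z' ≠ y → z' ∉ S →
    (∀ x ∈ S, (G.Adj x z ↔ G.Adj x z')) → G.Adj y z → G.Adj y z'

theorem pw_iff {n : ℕ} (G : SimpleGraph (Fin n)) (U : Finset (Fin n)) (y : Fin n)
    (S : Finset (Fin n)) : IsFunOf G U y S ↔ Pw G U y S := by
  constructor
  · rintro ⟨h1, h2, f, hf⟩
    refine ⟨h1, h2, fun z a1 a2 a3 z' b1 b2 b3 h => ?_⟩
    rw [hf z a1 a2 a3, hf z' b1 b2 b3]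
    have : (fun x : S => G.Adj x z) = fun x : S => G.Adj x z' :=
      funext fun x => propext (h x.1 x.2)
    rw [this]
    exact id
  · rintro ⟨h1, h2, h⟩
    refine ⟨h1, h2, fun p => ∃ z ∈ U, z ≠ y ∧ z ∉ S ∧ G.Adj y z ∧ p = fun x : S => G.Adj x z,
      fun z a1 a2 a3 => ⟨fun h => ⟨z, a1, a2, a3, h, rfl⟩, ?_⟩⟩
    rintro ⟨z', b1, b2, b3, b4, b5⟩
    exact h z' b1 b2 b3 z a1 a2 a3 (fun x hx => (Iff.of_eq (congrFun b5 ⟨x, hx⟩)).symm) b4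

theorem attempt {n k : ℕ} (G : SimpleGraph (Fin n)) (U M D : Finset (Fin n)) (hMU : M ⊆ U)
    (hM : ∀ x ∈ U, x ∉ M → ∀ y ∈ M, ∀ z ∈ M, (G.Adj x y ↔ G.Adj x z)) (hM2 : 2 ≤ M.card)
    (hk : ∀ W ⊆ M, W.Nonempty → ∃ y ∈ W, ∃ S : Finset (Fin n), S.card ≤ k ∧ Pw G W y S)
    (hD : D ⊆ M) (hD0 : D.Nonempty) :
    (∃ y ∈ U, ∃ S : Finset (Fin n), S.card ≤ D.card + k ∧ Pw G U y S) ∨
    ∃ D', D ⊆ D' ∧ D' ⊆ M ∧ D'.card ≤ D.card + k + 1 ∧
      ((¬ (∀ z ∈ M, z ∉ D → ∃ x ∈ D, G.Adj x z) ∧ ∀ z ∈ M, z ∉ D' → ∃ x ∈ D', G.Adj x z) ∨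
       (¬ (∀ z ∈ M, z ∉ D → ∃ x ∈ D, ¬ G.Adj x z) ∧ ∀ z ∈ M, z ∉ D' → ∃ x ∈ D', ¬ G.Adj x z)) := by
  have out : ∀ z ∈ U, z ∉ M → ∀ x ∈ M, ∀ y ∈ M, (G.Adj x z ↔ G.Adj y z) := by
    intro z a1 a2 x hx y hy
    rw [G.adj_comm x, G.adj_comm y]
    exact hM z a1 a2 x hx y hy
  by_cases hW : (M \ D).Nonempty
  swap
  · left
    have hMD : M ⊆ D := by
      intro x hx
      by_contra hc
      exact hW ⟨x, mem_sdiff.mpr ⟨hx, hc⟩⟩
    obtain ⟨y, hy, x, hx, hxy⟩ := one_lt_card.mp (show 1 < M.card by omega)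
    refine ⟨y, hMU hy, M.erase y, ?_, (erase_subset _ _).trans hMU, notMem_erase _ _, ?_⟩
    · have := card_le_card hMD
      have := card_erase_le (s := M) (a := y)
      omega
    · intro z a1 a2 a3 z' b1 b2 b3 h
      have a4 : z ∉ M := fun h => a3 (mem_erase.mpr ⟨a2, h⟩)
      have b4 : z' ∉ M := fun h => b3 (mem_erase.mpr ⟨b2, h⟩)
      rw [out z a1 a4 y hy x hx, out z' b1 b4 y hy x hx]
      exact (h x (mem_erase.mpr ⟨hxy.symm, hx⟩)).mp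
  obtain ⟨y, hy, S, hS, s1, s2, s3⟩ := hk (M \ D) sdiff_subset hW
  obtain ⟨hyM, hyD⟩ := mem_sdiff.mp hy
  have hSM : S ⊆ M := s1.trans sdiff_subset
  have c1 : (D ∪ S).card ≤ D.card + k := (card_union_le _ _).trans (by omega)
  have c2 : (insert y (D ∪ S)).card ≤ D.card + k + 1 := (card_insert_le _ _).trans (by omega)
  have c3 : D ⊆ insert y (D ∪ S) := subset_union_left.trans (subset_insert _ _)
  have c4 : insert y (D ∪ S) ⊆ M := insert_subset hyM (union_subset hD hSM)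
  by_cases g0 : ∃ z ∈ M, z ≠ y ∧ z ∉ D ∪ S ∧ (∀ x ∈ D ∪ S, ¬ G.Adj x z) ∧ G.Adj y z
  · obtain ⟨z, a1, a2, a3, a4, a5⟩ := g0
    rw [mem_union, not_or] at a3
    refine Or.inr ⟨_, c3, c4, c2, Or.inl ⟨fun h => ?_, fun z' b1 b2 => ?_⟩⟩
    · obtain ⟨x, hx, h⟩ := h z a1 a3.1
      exact a4 x (mem_union_left _ hx) h
    · by_contra hc
      push Not at hc
      simp only [mem_insert, mem_union, not_or] at b2
      refine hc y (mem_insert_self _ _) (s3 z (mem_sdiff.mpr ⟨a1, a3.1⟩) a2 a3.2 z'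
        (mem_sdiff.mpr ⟨b1, b2.2.1⟩) b2.1 b2.2.2 (fun x hx => ?_) a5)
      exact iff_of_false (a4 x (mem_union_right _ hx))
        (hc x (mem_insert_of_mem (mem_union_right _ hx)))
  by_cases g1 : ∃ z ∈ M, z ≠ y ∧ z ∉ D ∪ S ∧ (∀ x ∈ D ∪ S, G.Adj x z) ∧ ¬ G.Adj y z
  · obtain ⟨z, a1, a2, a3, a4, a5⟩ := g1
    rw [mem_union, not_or] at a3
    refine Or.inr ⟨_, c3, c4, c2, Or.inr ⟨fun h => ?_, fun z' b1 b2 => ?_⟩⟩
    · obtain ⟨x, hx, h⟩ := h z a1 a3.1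
      exact h (a4 x (mem_union_left _ hx))
    · by_contra hc
      push Not at hc
      simp only [mem_insert, mem_union, not_or] at b2
      refine a5 (s3 z' (mem_sdiff.mpr ⟨b1, b2.2.1⟩) b2.1 b2.2.2 z
        (mem_sdiff.mpr ⟨a1, a3.1⟩) a2 a3.2 (fun x hx => ?_) (hc y (mem_insert_self _ _)))
      exact iff_of_true (hc x (mem_insert_of_mem (mem_union_right _ hx)))
        (a4 x (mem_union_right _ hx))
  left
  have hDS : D ∪ S ⊆ M := union_subset hD hSM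
  refine ⟨y, hMU hyM, D ∪ S, c1, hDS.trans hMU, by simp [hyD, s2], ?_⟩
  intro z a1 a2 a3 z' b1 b2 b3 h hyz
  obtain ⟨d, hd⟩ := hD0
  by_cases a4 : z ∈ M <;> by_cases b4 : z' ∈ M
  · rw [mem_union, not_or] at a3 b3
    exact s3 z (mem_sdiff.mpr ⟨a4, a3.1⟩) a2 a3.2 z' (mem_sdiff.mpr ⟨b4, b3.1⟩) b2 b3.2
      (fun x hx => h x (mem_union_right _ hx)) hyz
  · by_contra hc
    exact g0 ⟨z, a4, a2, a3, fun x hx h' => hc ((out z' b1 b4 x (hDS hx) y hyM).mp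
      ((h x hx).mp h')), hyz⟩
  · by_contra hc
    exact g1 ⟨z', b4, b2, b3, fun x hx => (h x hx).mp ((out z a1 a4 x (hDS hx) y hyM).mpr hyz), hc⟩
  · rw [out z' b1 b4 y hyM d (hD hd), ← h d (mem_union_left _ hd), ← out z a1 a4 y hyM d (hD hd)]
    exact hyz

theorem result (X : (n : ℕ) → SimpleGraph (Fin n) → Prop)
    (hX : ∀ (n m : ℕ) (G : SimpleGraph (Fin n)) (H : SimpleGraph (Fin m)),
      Nonempty (H ↪g G) → X n G → X m H)
    (h : ∃ k : ℕ, ∀ (n : ℕ) (G : SimpleGraph (Fin n)), X n G → IsPrime G → FunLe G k) :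
    ∃ k : ℕ, ∀ (n : ℕ) (G : SimpleGraph (Fin n)), X n G → FunLe G k := by
  classical
  obtain ⟨k, hk⟩ := h
  refine ⟨3 * k + 3, fun n G hG U hU => ?_⟩
  simp only [pw_iff]
  by_cases hU1 : U.card < 2
  · obtain ⟨y, hy⟩ := hU
    refine ⟨y, hy, ∅, by simp, empty_subset _, notMem_empty _, fun z a1 a2 => ?_⟩
    exact absurd (card_le_one.mp (show U.card ≤ 1 by omega) z a1 y hy) a2
  obtain ⟨M, hM, hmin⟩ := exists_min_image (U.powerset.filter (fun M => 2 ≤ M.card ∧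
    ∀ x ∈ U, x ∉ M → ∀ y ∈ M, ∀ z ∈ M, (G.Adj x y ↔ G.Adj x z))) card
    ⟨U, by simp only [mem_filter, mem_powerset]
           exact ⟨Subset.refl _, by omega, fun x h1 h2 => absurd h1 h2⟩⟩
  simp only [mem_filter, mem_powerset] at hM hmin
  obtain ⟨hMU, hM2, hM⟩ := hM
  let e : Fin M.card ↪ Fin n := (M.orderEmbOfFin rfl).toEmbedding
  have he : ∀ i, e i ∈ M := fun i => M.orderEmbOfFin_mem rfl i
  have he' : ∀ x ∈ M, ∃ i, e i = x := fun x hx => by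
    have : x ∈ Set.range (M.orderEmbOfFin rfl) := by
      rw [range_orderEmbOfFin]; exact hx
    exact this
  have hprime : IsPrime (G.comap e) := by
    intro N hN
    by_contra hc
    rw [not_or, Set.not_subsingleton_iff] at hc
    obtain ⟨⟨a, ha, b, hb, hab⟩, hc⟩ := hc
    obtain ⟨c, hc⟩ := (Set.ne_univ_iff_exists_notMem N).mp hc
    have hsub : N.toFinset.map e ⊆ M := by
      intro x hx
      obtain ⟨i, -, rfl⟩ := mem_map.mp hx
      exact he i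
    have := hmin (N.toFinset.map e) ⟨hsub.trans hMU, ?_, ?_⟩
    · refine absurd this (not_le.mpr (card_lt_card ⟨hsub, fun h => ?_⟩))
      have := h (he c)
      simp [hc] at this
    · rw [card_map]
      exact one_lt_card.mpr ⟨a, by simpa, b, by simpa, hab⟩
    · intro x hx hxN y hy z hz
      by_cases hxM : x ∈ M
      · obtain ⟨i, rfl⟩ := he' x hxM
        obtain ⟨j, hj, rfl⟩ := mem_map.mp hy
        obtain ⟨l, hl, rfl⟩ := mem_map.mp hz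
        exact hN i (by simpa using hxN) j (by simpa using hj) l (by simpa using hl)
      · exact hM x hx hxM y (hsub hy) z (hsub hz)
  have hF := hk _ _ (hX _ _ G _ ⟨SimpleGraph.Embedding.comap e G⟩ hG) hprime
  have hk' : ∀ W ⊆ M, W.Nonempty → ∃ y ∈ W, ∃ S : Finset (Fin n), S.card ≤ k ∧ Pw G W y S := by
    intro W hW ⟨w, hw⟩
    obtain ⟨i, rfl⟩ := he' w (hW hw)
    obtain ⟨y, hy, S, hS, hp⟩ := hF (univ.filter (fun i => e i ∈ W)) ⟨i, by simpa⟩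
    rw [pw_iff] at hp
    obtain ⟨s1, s2, s3⟩ := hp
    refine ⟨e y, by simpa using hy, S.map e, by simpa, ?_, by simpa, ?_⟩
    · intro x hx
      obtain ⟨j, hj, rfl⟩ := mem_map.mp hx
      simpa using s1 hj
    · intro z a1 a2 a3 z' b1 b2 b3 h
      obtain ⟨j, rfl⟩ := he' z (hW a1)
      obtain ⟨l, rfl⟩ := he' z' (hW b1)
      exact s3 j (by simpa) (fun h => a2 (by rw [h])) (by simpa using a3) l (by simpa)
        (fun h => b2 (by rw [h])) (by simpa using b3) (fun x hx => h (e x) (mem_map_of_mem _ hx))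
  obtain ⟨v, hv⟩ : M.Nonempty := card_pos.mp (by omega)
  have mono : ∀ (R : Fin n → Fin n → Prop) (D D' : Finset (Fin n)), D ⊆ D' →
      (∀ z ∈ M, z ∉ D → ∃ x ∈ D, R x z) → ∀ z ∈ M, z ∉ D' → ∃ x ∈ D', R x z := by
    intro R D D' h1 h2 z a1 a2
    obtain ⟨x, hx, h⟩ := h2 z a1 (fun h => a2 (h1 h))
    exact ⟨x, h1 hx, h⟩
  rcases attempt G U M {v} hMU hM hM2 hk' (by simpa) (by simp) with
    ⟨y, hy, S, hS, hp⟩ | ⟨D1, a1, a2, a3, a4⟩
  · exact ⟨y, hy, S, by simp at hS; omega, hp⟩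
  rw [card_singleton] at a3
  have n1 : D1.Nonempty := ⟨v, a1 (mem_singleton_self v)⟩
  rcases attempt G U M D1 hMU hM hM2 hk' a2 n1 with ⟨y, hy, S, hS, hp⟩ | ⟨D2, b1, b2, b3, b4⟩
  · exact ⟨y, hy, S, by omega, hp⟩
  rcases attempt G U M D2 hMU hM hM2 hk' b2 (n1.mono b1) with
    ⟨y, hy, S, hS, hp⟩ | ⟨D3, c1, c2, c3, c4⟩
  · exact ⟨y, hy, S, by omega, hp⟩
  exfalso
  rcases a4 with a4 | a4 <;> rcases b4 with b4 | b4 <;> rcases c4 with c4 | c4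
  all_goals first
    | exact b4.1 a4.2
    | exact c4.1 b4.2
    | exact c4.1 (mono _ _ _ b1 a4.2)

end Pool.Agent.Results.MP_42f001_co.Primes
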